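import Mathlib
import Pool.Agent.Y1.KN.Defs

/-!
# Elementary bounds for the totient function and for the rate
-/

namespace Pool.Agent.V7H81.AF

open Finset NumberField Pool.Agent.Y1.KN

theorem prod_le_card_mul (S : Finset ℕ) (h : ∀ p ∈ S, 2 ≤ p) :
    ∏ p ∈ S, p ≤ (S.card + 1) * ∏ p ∈ S, (p - 1) := by
  classical
  induction S using Finset.induction_on_max with
  | empty => simp
  | insert a S hS ih =>
    have ha : a ∉ S := fun h1 => lt_irrefl _ (hS a h1)
    have h2 : 2 ≤ a := h a (mem_insert_self _ _)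
    have hk : S.card + 2 ≤ a := by
      have h1 : S ⊆ Finset.Ico 2 a := fun x hx =>
        Finset.mem_Ico.2 ⟨h x (mem_insert_of_mem hx), hS x hx⟩
      have h3 := card_le_card h1
      rw [Nat.card_Ico] at h3
      omega
    rw [prod_insert ha, prod_insert ha, card_insert_of_notMem ha]
    have h4 := ih fun p hp => h p (mem_insert_of_mem hp)
    have h5 : a * (S.card + 1) ≤ (S.card + 1 + 1) * (a - 1) := by
      obtain ⟨b, rfl⟩ : ∃ b, a = b + 1 := ⟨a - 1, by omega⟩
      rw [Nat.add_sub_cancel]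
      nlinarith
    calc a * ∏ p ∈ S, p ≤ a * ((S.card + 1) * ∏ p ∈ S, (p - 1)) := Nat.mul_le_mul_left _ h4
      _ = (a * (S.card + 1)) * ∏ p ∈ S, (p - 1) := by ring
      _ ≤ ((S.card + 1 + 1) * (a - 1)) * ∏ p ∈ S, (p - 1) := Nat.mul_le_mul_right _ h5
      _ = _ := by ring

theorem le_totient_mul_log {n : ℕ} (hn : n ≠ 0) : n ≤ n.totient * (Nat.log 2 n + 1) := by
  have h1 := Nat.totient_mul_prod_primeFactors n
  have h2 := prod_le_card_mul n.primeFactors fun p hp => (Nat.prime_of_mem_primeFactors hp).two_le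
  have h3 : 0 < ∏ p ∈ n.primeFactors, (p - 1) := prod_pos fun p hp => by
    have := (Nat.prime_of_mem_primeFactors hp).two_le
    omega
  have h4 : n.primeFactors.card ≤ Nat.log 2 n := by
    refine Nat.le_log_of_pow_le (by norm_num) ?_
    have h5 : ∏ p ∈ n.primeFactors, p ≤ n := Nat.le_of_dvd (Nat.pos_of_ne_zero hn)
      (Nat.prod_primeFactors_dvd n)
    refine le_trans ?_ h5
    rw [← prod_const]
    exact prod_le_prod' fun p hp => (Nat.prime_of_mem_primeFactors hp).two_le
  have h6 : n * ∏ p ∈ n.primeFactors, (p - 1) ≤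
      (n.totient * (Nat.log 2 n + 1)) * ∏ p ∈ n.primeFactors, (p - 1) := by
    rw [← h1]
    refine (Nat.mul_le_mul_left _ h2).trans ?_
    rw [← mul_assoc]
    refine Nat.mul_le_mul_right _ (Nat.mul_le_mul_left _ ?_)
    omega
  exact Nat.le_of_mul_le_mul_right h6 h3

/-- The second term of the bound for moderately large ranks. -/
theorem pow_le_exp {n g : ℕ} (hn : n ≠ 0) (hg : g ≠ 0) (hng : n ≤ 2 ^ Nat.sqrt g) :
    (1 - (n.totient : ℝ) / (n + 1)) ^ g ≤ Real.exp (-(√g / 4)) := by
  have hg1 : (1 : ℝ) ≤ √g := by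
    rw [Real.one_le_sqrt]
    exact_mod_cast Nat.one_le_iff_ne_zero.2 hg
  have h1 : (Nat.log 2 n : ℝ) ≤ √g := by
    have h2 : Nat.log 2 n ≤ Nat.sqrt g := by
      refine (Nat.log_mono_right hng).trans ?_
      rw [Nat.log_pow (by norm_num)]
    refine (Nat.cast_le.2 h2).trans ?_
    exact Real.nat_sqrt_le_real_sqrt
  have h2 : (n : ℝ) ≤ n.totient * (Nat.log 2 n + 1) := by exact_mod_cast le_totient_mul_log hn
  have h3 : (n : ℝ) ≤ n.totient * (2 * √g) := by
    refine h2.trans (mul_le_mul_of_nonneg_left ?_ (Nat.cast_nonneg _))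
    linarith
  have hn1 : (1 : ℝ) ≤ n := by exact_mod_cast Nat.one_le_iff_ne_zero.2 hn
  have h4 : 1 / (4 * √g) ≤ (n.totient : ℝ) / (n + 1) := by
    rw [div_le_div_iff₀ (by positivity) (by positivity)]
    nlinarith
  have h5 : (n.totient : ℝ) ≤ n + 1 := by
    have := Nat.totient_le n
    have h6 : (n.totient : ℝ) ≤ n := by exact_mod_cast this
    linarith
  have h6 : 0 ≤ 1 - (n.totient : ℝ) / (n + 1) := by
    rw [sub_nonneg, div_le_one (by positivity)]
    exact h5
  calc (1 - (n.totient : ℝ) / (n + 1)) ^ g ≤ (Real.exp (-(1 / (4 * √g)))) ^ g := by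
        refine pow_le_pow_left₀ h6 ?_ g
        have h7 := Real.add_one_le_exp (-(1 / (4 * √g)))
        linarith
    _ = Real.exp (-(√g / 4)) := by
        rw [← Real.exp_nat_mul]
        congr 1
        have h8 : √(g : ℝ) * √g = g := Real.mul_self_sqrt (Nat.cast_nonneg _)
        have h9 : √(g : ℝ) ≠ 0 := by positivity
        field_simp
        nlinarith

theorem rate_self_le (E : Type*) [Field E] [NumberField E] {g : ℕ} (hg : g ≠ 0) :
    rate E g g ≤ (1 + Real.log (2 * g)) ^ 16 * (1 / √g) := by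
  unfold rate
  have h1 : (1 : ℝ) ≤ g := by exact_mod_cast Nat.one_le_iff_ne_zero.2 hg
  refine mul_le_mul_of_nonneg_left ?_ ?_
  · refine (min_le_right _ _).trans (le_of_eq ?_)
    have h8 : √(g : ℝ) * √g = g := Real.mul_self_sqrt (Nat.cast_nonneg _)
    have h9 : √(g : ℝ) ≠ 0 := by positivity
    rw [div_eq_div_iff (by positivity) h9, h8, one_mul]
  · have h2 : 0 ≤ Real.log (2 * g) := Real.log_nonneg (by linarith)
    positivity

theorem tendsto_bound (C : ℝ) : Filter.Tendsto (fun g : ℕ =>
    C * ((1 + Real.log (2 * g)) ^ 16 * (1 / √g)) + Real.exp (-(√g / 4)))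
    Filter.atTop (nhds 0) := by
  have h1 : Filter.Tendsto (fun x : ℝ => (1 + Real.log (2 * x)) ^ 16 * (1 / √x))
      Filter.atTop (nhds 0) := by
    have h2 : (fun x : ℝ => (1 + Real.log (2 * x)) ^ 16) =o[Filter.atTop]
        (fun x : ℝ => √x) := by
      have h3 : (fun x : ℝ => 1 + Real.log (2 * x)) =o[Filter.atTop]
          (fun x : ℝ => x ^ (1 / 32 : ℝ)) := by
        have h4 : (fun x : ℝ => Real.log x) =o[Filter.atTop] (fun x : ℝ => x ^ (1 / 32 : ℝ)) :=
          isLittleO_log_rpow_atTop (by norm_num)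
        have h5 : (fun _ : ℝ => (1 : ℝ) + Real.log 2) =o[Filter.atTop]
            (fun x : ℝ => x ^ (1 / 32 : ℝ)) := by
          rw [Asymptotics.isLittleO_const_left]
          right
          exact (tendsto_rpow_atTop (y := (1 / 32 : ℝ)) (by norm_num)).congr' (by
            filter_upwards [Filter.eventually_ge_atTop 0] with x hx
            rw [Function.comp, Real.norm_eq_abs, abs_of_nonneg (Real.rpow_nonneg hx _)])
        refine (h5.add h4).congr' ?_ Filter.EventuallyEq.rfl
        filter_upwards [Filter.eventually_gt_atTop 0] with x hx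
        rw [Real.log_mul (by norm_num) hx.ne']
        ring
      have h6 := h3.pow (show 0 < 16 by norm_num)
      refine h6.congr' Filter.EventuallyEq.rfl ?_
      filter_upwards [Filter.eventually_ge_atTop 0] with x hx
      rw [← Real.rpow_natCast, ← Real.rpow_mul hx, Real.sqrt_eq_rpow]
      norm_num
    have h7 := h2.tendsto_div_nhds_zero
    refine h7.congr fun x => ?_
    rw [mul_one_div]
  have h2 : Filter.Tendsto (fun x : ℝ => Real.exp (-(√x / 4))) Filter.atTop (nhds 0) := by
    refine Real.tendsto_exp_neg_atTop_nhds_zero.comp ?_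
    exact Real.tendsto_sqrt_atTop.atTop_div_const (by norm_num)
  have h3 := ((h1.const_mul C).add h2).comp (tendsto_natCast_atTop_atTop (R := ℝ))
  rw [mul_zero, add_zero] at h3
  exact h3

end Pool.Agent.V7H81.AF
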